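import Pool.Agent.Helper53.PT.GoalsB

/-!
# MP_705522_gt, packets PT-FA and PT-AV

Existence of the first zero of `f0` (intermediate value theorem) and slopes of concave and convex
functions.
-/

namespace Pool.Agent.Helper3.PT

open MeasureTheory Set Filter Topology
open Pool.Agent.Helper53.PT

theorem gFA : GFA := by
  intro θ zL zR m xW xD yN h0 h1 hz0 hz hzm hpos hneg s1 hW hzW hD hzD hN hmN hWN hDN
  have hc : Continuous (f0 θ) := continuous_f0 (by linarith) h1
  obtain ⟨z, hzmem, hfz⟩ : ∃ z ∈ Icc zL zR, f0 θ z = 0 := by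
    have h := intermediate_value_Icc' hz.le hc.continuousOn
    exact h ⟨hneg.le, hpos.le⟩
  have hzL : zL < z := by
    rcases eq_or_lt_of_le hzmem.1 with h | h
    · rw [← h] at hfz
      exact absurd hfz hpos.ne'
    · exact h
  have hzR : z < zR := by
    rcases eq_or_lt_of_le hzmem.2 with h | h
    · rw [h] at hfz
      exact absurd hfz hneg.ne
    · exact h
  exact ⟨z, hzL, hzR,
    { th0 := h0
      th1 := h1
      z0 := hz0.trans hzL
      zm := hzR.trans_le hzm
      fz := hfz
      s1 := s1
      W := hW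
      zW := hzR.le.trans hzW
      D := hD
      zD := hzR.le.trans hzD
      N := hN
      mN := hmN
      WN := hWN
      DN := hDN }⟩

/-- Slopes of a concave function on a set containing the two extreme points. -/
theorem slope_concave {s : Set ℝ} {I : ℝ → ℝ} (hI : ConcaveOn ℝ s I) {y0 x0 y x : ℝ}
    (hy0 : y0 ∈ s) (hx : x ∈ s) (h1 : y0 < x0) (h2 : y0 ≤ y) (h3 : x0 ≤ x) (h4 : y < x) :
    (I x - I y) * (x0 - y0) ≤ (I x0 - I y0) * (x - y) := by
  have hd : 0 < x - y0 := by linarith
  have a1 : (x0 - y0) * (I x - I y0) ≤ (I x0 - I y0) * (x - y0) := by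
    have ha : 0 ≤ (x - x0) / (x - y0) := div_nonneg (by linarith) hd.le
    have hb : 0 ≤ (x0 - y0) / (x - y0) := div_nonneg (by linarith) hd.le
    have hab : (x - x0) / (x - y0) + (x0 - y0) / (x - y0) = 1 := by
      rw [← add_div, div_eq_one_iff_eq hd.ne']
      ring
    have h := hI.2 hy0 hx ha hb hab
    have e : ((x - x0) / (x - y0)) • y0 + ((x0 - y0) / (x - y0)) • x = x0 := by
      simp only [smul_eq_mul]
      field_simp
      ring
    rw [e] at h
    simp only [smul_eq_mul] at h
    have h' : (x - x0) * I y0 + (x0 - y0) * I x ≤ I x0 * (x - y0) := by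
      have := mul_le_mul_of_nonneg_right h hd.le
      have e2 : ((x - x0) / (x - y0) * I y0 + (x0 - y0) / (x - y0) * I x) * (x - y0)
          = (x - x0) * I y0 + (x0 - y0) * I x := by
        field_simp
      rwa [e2] at this
    nlinarith [h']
  have a2 : (I x - I y) * (x - y0) ≤ (x - y) * (I x - I y0) := by
    have ha : 0 ≤ (x - y) / (x - y0) := div_nonneg (by linarith) hd.le
    have hb : 0 ≤ (y - y0) / (x - y0) := div_nonneg (by linarith) hd.le
    have hab : (x - y) / (x - y0) + (y - y0) / (x - y0) = 1 := by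
      rw [← add_div, div_eq_one_iff_eq hd.ne']
      ring
    have h := hI.2 hy0 hx ha hb hab
    have e : ((x - y) / (x - y0)) • y0 + ((y - y0) / (x - y0)) • x = y := by
      simp only [smul_eq_mul]
      field_simp
      ring
    rw [e] at h
    simp only [smul_eq_mul] at h
    have h' : (x - y) * I y0 + (y - y0) * I x ≤ I y * (x - y0) := by
      have := mul_le_mul_of_nonneg_right h hd.le
      have e2 : ((x - y) / (x - y0) * I y0 + (y - y0) / (x - y0) * I x) * (x - y0)
          = (x - y) * I y0 + (y - y0) * I x := by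
        field_simp
      rwa [e2] at this
    nlinarith [h']
  have a3 : (I x - I y) * (x0 - y0) * (x - y0) ≤ (I x0 - I y0) * (x - y) * (x - y0) := by
    calc (I x - I y) * (x0 - y0) * (x - y0) = ((I x - I y) * (x - y0)) * (x0 - y0) := by ring
      _ ≤ ((x - y) * (I x - I y0)) * (x0 - y0) := mul_le_mul_of_nonneg_right a2 (by linarith)
      _ = (x - y) * ((x0 - y0) * (I x - I y0)) := by ring
      _ ≤ (x - y) * ((I x0 - I y0) * (x - y0)) := mul_le_mul_of_nonneg_left a1 (by linarith)
      _ = (I x0 - I y0) * (x - y) * (x - y0) := by ring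
  exact le_of_mul_le_mul_right a3 hd

theorem gAV : GAV := by
  refine ⟨fun I hI y0 x0 y x h0 h1 h2 h3 h4 => ?_, fun Z R hR y0 x0 y x h0 h1 h2 h3 h4 h5 => ?_⟩
  · exact slope_concave hI (mem_Ici.2 h0) (mem_Ici.2 (by linarith)) h1 h2 h3 h4
  · have h := slope_concave hR.neg (y0 := y0) (x0 := x0) (y := y) (x := x)
      ⟨h0, by linarith⟩ ⟨by linarith, h5⟩ h1 h2 h3 h4
    simp only [Pi.neg_apply] at h
    nlinarith [h]

end Pool.Agent.Helper3.PT
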