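import Pool.Agent.Helper53.PT.GoalsC

/-!
# Correctness of `expUp` and `expLo`
-/

namespace Pool.Agent.Helper3.PT

open Pool.Agent.Helper53.PT

/-! ### tables defined by a recursion -/

/-- a table by recursion -/
def tb (f : ℕ → ℕ) (a n : ℕ) : ℕ :=
  Nat.rec a (fun k ih => Nat.add ih (Nat.shiftLeft (f (Nat.shiftRight ih (Nat.mul 44 k)))
    (Nat.mul 44 (Nat.succ k)))) n

/-- the sequence -/
def sq (f : ℕ → ℕ) (a : ℕ) : ℕ → ℕ
  | 0 => a
  | n + 1 => f (sq f a n)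

theorem sq_zero (f : ℕ → ℕ) (a : ℕ) : sq f a 0 = a := rfl

theorem sq_succ (f : ℕ → ℕ) (a n : ℕ) : sq f a (n + 1) = f (sq f a n) := rfl

theorem tb_succ (f : ℕ → ℕ) (a n : ℕ) : tb f a (n + 1) =
    tb f a n + f (tb f a n / 2 ^ (44 * n)) * 2 ^ (44 * (n + 1)) := by
  show Nat.add (tb f a n) (Nat.shiftLeft (f (Nat.shiftRight (tb f a n) (Nat.mul 44 n)))
    (Nat.mul 44 (Nat.succ n))) = _
  have h1 : Nat.shiftRight (tb f a n) (Nat.mul 44 n) = tb f a n / 2 ^ (44 * n) :=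
    Nat.shiftRight_eq_div_pow _ _
  rw [h1]
  have h2 : ∀ x y : ℕ, Nat.shiftLeft x y = x * 2 ^ y := fun x y => Nat.shiftLeft_eq x y
  rw [h2]
  rfl

theorem fld_eq (T k : ℕ) : N.fld T k = T / 2 ^ (44 * k) % 2 ^ 44 := by
  show (T >>> (44 * k)) % 17592186044416 = _
  rw [Nat.shiftRight_eq_div_pow]
  norm_num

theorem tb_spec (f : ℕ → ℕ) (a : ℕ) (h : ∀ n, sq f a n < 2 ^ 44) (n : ℕ) :
    tb f a n < 2 ^ (44 * (n + 1)) ∧ tb f a n / 2 ^ (44 * n) = sq f a n ∧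
      ∀ k ≤ n, N.fld (tb f a n) k = sq f a k := by
  induction n with
  | zero =>
    have h0 : a < 2 ^ 44 := h 0
    have e0 : tb f a 0 = a := rfl
    have e1 : sq f a 0 = a := rfl
    refine ⟨by rw [e0]; simpa using h0, by rw [e0, e1]; simp, fun k hk => ?_⟩
    obtain rfl : k = 0 := by omega
    rw [fld_eq, e0, e1, Nat.mul_zero, pow_zero, Nat.div_one, Nat.mod_eq_of_lt h0]
  | succ n ih =>
    obtain ⟨h1, h2, h3⟩ := ih
    have e : tb f a (n + 1) = tb f a n + 2 ^ (44 * (n + 1)) * sq f a (n + 1) := by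
      rw [tb_succ, h2, mul_comm]; rfl
    have hs := h (n + 1)
    have hd : tb f a (n + 1) / 2 ^ (44 * (n + 1)) = sq f a (n + 1) := by
      rw [e, Nat.add_mul_div_left _ _ (by positivity), Nat.div_eq_of_lt h1, zero_add]
    refine ⟨?_, hd, fun k hk => ?_⟩
    · rw [e]
      have e2 : 2 ^ (44 * (n + 1 + 1)) = 2 ^ (44 * (n + 1)) * 2 ^ 44 := by
        rw [← pow_add]; congr 1
      rw [e2]
      have : 2 ^ (44 * (n + 1)) * (sq f a (n + 1) + 1) ≤ 2 ^ (44 * (n + 1)) * 2 ^ 44 :=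
        Nat.mul_le_mul_left _ hs
      rw [mul_add, mul_one] at this
      omega
    · rcases Nat.lt_or_ge n k with hk' | hk'
      · obtain rfl : k = n + 1 := by omega
        rw [fld_eq, hd, Nat.mod_eq_of_lt hs]
      · rw [← h3 k hk', fld_eq, fld_eq, e]
        have e2 : 2 ^ (44 * (n + 1)) * sq f a (n + 1) =
            2 ^ (44 * k) * (2 ^ 44 * (2 ^ (44 * (n - k)) * sq f a (n + 1))) := by
          rw [← mul_assoc, ← mul_assoc, ← pow_add, ← pow_add]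
          congr 2
          omega
        rw [e2, Nat.add_mul_div_left _ _ (by positivity), Nat.add_mul_mod_self_left]

/-! ### bounds of `exp` -/

theorem exp_taylor {x : ℝ} (h0 : 0 ≤ x) (h1 : x ≤ 1 / 8) :
    Real.exp (-x) ≤ 1 - x + x ^ 2 / 2 - x ^ 3 / 6 + x ^ 4 / 24 - x ^ 5 / 120 + x ^ 6 / 720 ∧
    1 - x + x ^ 2 / 2 - x ^ 3 / 6 + x ^ 4 / 24 - x ^ 5 / 120 + x ^ 6 / 720 - 106 / 2 ^ 40 ≤
      Real.exp (-x) := by
  have h := Real.exp_bound (x := -x) (by rw [abs_neg, abs_of_nonneg h0]; linarith) (n := 8)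
    (by norm_num)
  rw [abs_neg, abs_of_nonneg h0] at h
  simp only [Finset.sum_range_succ, Finset.sum_range_zero, Nat.factorial] at h
  norm_num at h
  have h7 : 0 ≤ x ^ 7 := by positivity
  have h7' : x ^ 7 ≤ (1 / 8) ^ 7 := pow_le_pow_left₀ h0 h1 7
  have h8 : x ^ 8 ≤ 1 / 8 * x ^ 7 := by
    have : x ^ 8 = x * x ^ 7 := by ring
    rw [this]
    exact mul_le_mul_of_nonneg_right h1 h7
  have h8' : 0 ≤ x ^ 8 := by positivity
  have ha := abs_le.1 h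
  constructor
  · nlinarith [ha.1, ha.2]
  · norm_num at h7' ⊢
    nlinarith [ha.1, ha.2]

theorem exp_eighth : (970315605868 : ℝ) / 2 ^ 40 ≤ Real.exp (-(1 / 8)) ∧
    Real.exp (-(1 / 8)) ≤ 970315605869 / 2 ^ 40 := by
  have e8 : |(-(1 / 8) : ℝ)| = 1 / 8 := by rw [abs_neg, abs_of_nonneg (by norm_num)]
  have h := Real.exp_bound (x := -(1 / 8)) (by rw [e8]; norm_num) (n := 12) (by norm_num)
  rw [e8] at h
  have ha := abs_le.1 h
  simp only [Finset.sum_range_succ, Finset.sum_range_zero, Nat.factorial] at ha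
  obtain ⟨h1, h2⟩ := ha
  generalize Real.exp (-(1 / 8)) = E at h1 h2 ⊢
  norm_num at h1 h2 ⊢
  constructor <;> linarith

/-! ### the tables -/

/-- one step, upwards -/
def fU (x : ℕ) : ℕ := x * 970315605869 / 2 ^ 40 + 1

/-- one step, downwards -/
def fL (x : ℕ) : ℕ := x * 970315605868 / 2 ^ 40

theorem fU_eq (x : ℕ) : Nat.succ (Nat.shiftRight (Nat.mul x 970315605869) 40) = fU x := by
  have h : ∀ x : ℕ, Nat.shiftRight x 40 = x / 2 ^ 40 := fun x => Nat.shiftRight_eq_div_pow _ _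
  rw [h, fU]
  rfl

theorem fL_eq (x : ℕ) : Nat.shiftRight (Nat.mul x 970315605868) 40 = fL x := by
  have h : ∀ x : ℕ, Nat.shiftRight x 40 = x / 2 ^ 40 := fun x => Nat.shiftRight_eq_div_pow _ _
  rw [h, fL]
  rfl

theorem e8U_eq : N.e8U = tb fU 1099511627776 255 := by
  unfold N.e8U tb
  simp only [fU_eq]

theorem e8L_eq : N.e8L = tb fL 1099511627776 255 := by
  unfold N.e8L tb
  simp only [fL_eq]

theorem sqU_le (n : ℕ) : sq fU 1099511627776 n ≤ 2 ^ 40 := by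
  induction n with
  | zero => rw [sq_zero]; norm_num
  | succ n ih =>
    rw [sq_succ, fU]
    generalize sq fU 1099511627776 n = y at ih
    omega

theorem sqL_le (n : ℕ) : sq fL 1099511627776 n ≤ 2 ^ 40 := by
  induction n with
  | zero => rw [sq_zero]; norm_num
  | succ n ih =>
    rw [sq_succ, fL]
    generalize sq fL 1099511627776 n = y at ih
    omega

theorem exp_succ (n : ℕ) : Real.exp (-(((n + 1 : ℕ) : ℝ) / 8)) =
    Real.exp (-((n : ℝ) / 8)) * Real.exp (-(1 / 8)) := by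
  rw [← Real.exp_add]
  congr 1
  push_cast
  ring

/-- rounding -/
theorem div_bd' (x d : ℕ) (hd : 0 < d) : (x : ℝ) / d - 1 ≤ ((x / d : ℕ) : ℝ) ∧
    ((x / d : ℕ) : ℝ) ≤ (x : ℝ) / d := by
  refine ⟨?_, Nat.cast_div_le⟩
  have h1 : x < d * (x / d + 1) := Nat.lt_mul_div_succ x hd
  have h2 : (x : ℝ) ≤ d * (((x / d : ℕ) : ℝ) + 1) := by exact_mod_cast h1.le
  have hd' : (0 : ℝ) < d := by exact_mod_cast hd
  rw [sub_le_iff_le_add, div_le_iff₀ hd', mul_comm]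
  exact h2

theorem div_bd (x : ℕ) : (x : ℝ) / 2 ^ 40 - 1 ≤ ((x / 2 ^ 40 : ℕ) : ℝ) ∧
    ((x / 2 ^ 40 : ℕ) : ℝ) ≤ (x : ℝ) / 2 ^ 40 := by
  have h := div_bd' x (2 ^ 40) (by positivity)
  rw [Nat.cast_pow, Nat.cast_ofNat] at h
  exact h

theorem sqU_ge (n : ℕ) : Real.exp (-((n : ℝ) / 8)) ≤ (sq fU 1099511627776 n : ℝ) / 2 ^ 40 := by
  induction n with
  | zero =>
    rw [sq_zero]
    norm_num
  | succ n ih =>
    rw [exp_succ, sq_succ, fU]
    generalize sq fU 1099511627776 n = y at ih ⊢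
    have h1 := (div_bd (y * 970315605869)).1
    generalize y * 970315605869 / 2 ^ 40 = q at h1 ⊢
    have h2 : Real.exp (-((n : ℝ) / 8)) * Real.exp (-(1 / 8)) ≤
        (y : ℝ) / 2 ^ 40 * (970315605869 / 2 ^ 40) :=
      mul_le_mul ih exp_eighth.2 (Real.exp_nonneg _) (by positivity)
    refine h2.trans ?_
    push_cast at h1 ⊢
    have e : (y : ℝ) / 2 ^ 40 * (970315605869 / 2 ^ 40) =
      ((y : ℝ) * 970315605869 / 2 ^ 40) / 2 ^ 40 := by ring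
    rw [e]
    apply div_le_div_of_nonneg_right _ (by positivity)
    linarith

theorem sqL_ge (n : ℕ) : (sq fL 1099511627776 n : ℝ) / 2 ^ 40 ≤ Real.exp (-((n : ℝ) / 8)) := by
  induction n with
  | zero =>
    rw [sq_zero]
    norm_num
  | succ n ih =>
    rw [exp_succ, sq_succ, fL]
    generalize sq fL 1099511627776 n = y at ih ⊢
    have h1 := (div_bd (y * 970315605868)).2
    generalize y * 970315605868 / 2 ^ 40 = q at h1 ⊢
    have h2 : (y : ℝ) / 2 ^ 40 * (970315605868 / 2 ^ 40) ≤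
        Real.exp (-((n : ℝ) / 8)) * Real.exp (-(1 / 8)) :=
      mul_le_mul ih exp_eighth.1 (by positivity) (Real.exp_nonneg _)
    refine le_trans ?_ h2
    push_cast at h1 ⊢
    have e : (y : ℝ) / 2 ^ 40 * (970315605868 / 2 ^ 40) =
      ((y : ℝ) * 970315605868 / 2 ^ 40) / 2 ^ 40 := by ring
    rw [e]
    exact div_le_div_of_nonneg_right h1 (by positivity)

theorem fldU {i : ℕ} (hi : i ≤ 255) :
    Real.exp (-((i : ℝ) / 8)) ≤ (N.fld N.e8U i : ℝ) / 2 ^ 40 := by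
  rw [e8U_eq, (tb_spec fU 1099511627776 (fun n => (sqU_le n).trans_lt (by norm_num)) 255).2.2 i hi]
  exact sqU_ge i

theorem fldL {i : ℕ} (hi : i ≤ 255) :
    (N.fld N.e8L i : ℝ) / 2 ^ 40 ≤ Real.exp (-((i : ℝ) / 8)) := by
  rw [e8L_eq, (tb_spec fL 1099511627776 (fun n => (sqL_le n).trans_lt (by norm_num)) 255).2.2 i hi]
  exact sqL_ge i

/-! ### the polynomial -/

/-- one step of Horner's rule, real numbers -/
theorem step_real {x a j A q : ℝ} (x0 : 0 ≤ x) (x1 : x ≤ 1 / 8) (hj : 1 ≤ j)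
    (hA : 2 ^ 40 * A - 1 ≤ a) (hA' : a ≤ 2 ^ 40 * A + 2) (h0 : 0 ≤ A) (h1 : A ≤ 1)
    (q1 : x * a / j - 1 ≤ q) (q2 : q ≤ x * a / j) :
    2 ^ 40 * (1 - x * A / j) - 1 ≤ 2 ^ 40 - q ∧ 2 ^ 40 - q ≤ 2 ^ 40 * (1 - x * A / j) + 2 ∧
    0 ≤ 1 - x * A / j ∧ 1 - x * A / j ≤ 1 ∧ q ≤ 2 ^ 40 := by
  have hj0 : (0 : ℝ) < j := by linarith
  have y1 : x * a / j ≤ 2 ^ 40 * (x * A / j) + 1 / 4 := by
    have : x * a / j - 2 ^ 40 * (x * A / j) = x * (a - 2 ^ 40 * A) / j := by ring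
    have h : x * (a - 2 ^ 40 * A) / j ≤ 1 / 4 := by
      rw [div_le_iff₀ hj0]
      nlinarith
    linarith
  have y2 : 2 ^ 40 * (x * A / j) - 1 / 4 ≤ x * a / j := by
    have : x * a / j - 2 ^ 40 * (x * A / j) = x * (a - 2 ^ 40 * A) / j := by ring
    have h : -(1 / 4) ≤ x * (a - 2 ^ 40 * A) / j := by
      rw [le_div_iff₀ hj0]
      nlinarith
    linarith
  have z0 : 0 ≤ x * A / j := by positivity
  have z1 : x * A / j ≤ 1 / 8 := by
    rw [div_le_iff₀ hj0]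
    nlinarith
  generalize x * A / j = w at *
  generalize x * a / j = w' at *
  refine ⟨?_, ?_, ?_, ?_, ?_⟩ <;> linarith

/-- one step of Horner's rule: `a` with `|a - 2^40 A| ≤ 2` -/
theorem step_bd {r a j : ℕ} (hr : r ≤ 2 ^ 37) (hj : 1 ≤ j) {A : ℝ} (hA : 2 ^ 40 * A - 1 ≤ a)
    (hA' : (a : ℝ) ≤ 2 ^ 40 * A + 2) (h0 : 0 ≤ A) (h1 : A ≤ 1) :
    2 ^ 40 * (1 - (r : ℝ) / 2 ^ 40 * A / j) - 1 ≤
      ((1099511627776 - r * a / 2 ^ 40 / j : ℕ) : ℝ) ∧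
    ((1099511627776 - r * a / 2 ^ 40 / j : ℕ) : ℝ) ≤
      2 ^ 40 * (1 - (r : ℝ) / 2 ^ 40 * A / j) + 2 ∧
    0 ≤ 1 - (r : ℝ) / 2 ^ 40 * A / j ∧ 1 - (r : ℝ) / 2 ^ 40 * A / j ≤ 1 := by
  have hr' : (r : ℝ) ≤ 2 ^ 37 := by exact_mod_cast hr
  have hj' : (1 : ℝ) ≤ j := by exact_mod_cast hj
  have hd : 0 < 2 ^ 40 * j := by positivity
  rw [Nat.div_div_eq_div_mul]
  have hq := div_bd' (r * a) (2 ^ 40 * j) hd
  generalize r * a / (2 ^ 40 * j) = q at hq ⊢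
  have e : ((r * a : ℕ) : ℝ) / ((2 ^ 40 * j : ℕ) : ℝ) = (r : ℝ) / 2 ^ 40 * a / j := by
    rw [Nat.cast_mul, Nat.cast_mul, Nat.cast_pow, Nat.cast_ofNat]
    generalize (2 : ℝ) ^ 40 = T
    ring
  rw [e] at hq
  have x1 : (r : ℝ) / 2 ^ 40 ≤ 1 / 8 := by
    rw [div_le_iff₀ (by positivity)]
    norm_num at hr' ⊢
    exact hr'
  have h := step_real (by positivity) x1 hj' hA hA' h0 h1 hq.1 hq.2
  have hqle : q ≤ 1099511627776 := by
    have := h.2.2.2.2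
    norm_num at this
    exact_mod_cast this
  have e2 : ((1099511627776 - q : ℕ) : ℝ) = 2 ^ 40 - (q : ℝ) := by
    rw [Nat.cast_sub hqle]
    norm_num
  rw [e2]
  exact ⟨h.1, h.2.1, h.2.2.1, h.2.2.2.1⟩

theorem eP_eq (r : ℕ) : N.eP r 6 = 1099511627776 - r * (1099511627776 -
    r * (1099511627776 - r * (1099511627776 - r * (1099511627776 - r *
    (1099511627776 - r / 6) / 2 ^ 40 / 5) / 2 ^ 40 / 4) / 2 ^ 40 / 3) / 2 ^ 40 / 2) / 2 ^ 40 := by
  have h : ∀ x : ℕ, Nat.shiftRight x 40 = x / 2 ^ 40 := fun x => Nat.shiftRight_eq_div_pow _ _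
  have h1 : ∀ x y : ℕ, Nat.sub x y = x - y := fun _ _ => rfl
  have h2 : ∀ x y : ℕ, Nat.mul x y = x * y := fun _ _ => rfl
  have h3 : ∀ x y : ℕ, Nat.div x y = x / y := fun _ _ => rfl
  unfold N.eP
  simp only [h, h1, h2, h3]

/-- the Taylor polynomial -/
noncomputable def P6 (x : ℝ) : ℝ :=
  1 - x + x ^ 2 / 2 - x ^ 3 / 6 + x ^ 4 / 24 - x ^ 5 / 120 + x ^ 6 / 720

theorem eP_bd {r : ℕ} (hr : r ≤ 2 ^ 37) :
    2 ^ 40 * P6 ((r : ℝ) / 2 ^ 40) - 1 ≤ (N.eP r 6 : ℝ) ∧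
    (N.eP r 6 : ℝ) ≤ 2 ^ 40 * P6 ((r : ℝ) / 2 ^ 40) + 2 := by
  have h6 := step_bd (a := 2 ^ 40) (j := 6) (A := 1) hr (by norm_num) (by norm_num) (by norm_num)
    (by norm_num) (by norm_num)
  rw [Nat.mul_div_cancel _ (by norm_num)] at h6
  have h5 := step_bd (j := 5) hr (by norm_num) h6.1 h6.2.1 h6.2.2.1 h6.2.2.2
  have h4 := step_bd (j := 4) hr (by norm_num) h5.1 h5.2.1 h5.2.2.1 h5.2.2.2
  have h3 := step_bd (j := 3) hr (by norm_num) h4.1 h4.2.1 h4.2.2.1 h4.2.2.2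
  have h2 := step_bd (j := 2) hr (by norm_num) h3.1 h3.2.1 h3.2.2.1 h3.2.2.2
  have h1 := step_bd (j := 1) hr (by norm_num) h2.1 h2.2.1 h2.2.2.1 h2.2.2.2
  rw [Nat.div_one] at h1
  rw [eP_eq]
  refine ⟨le_trans (le_of_eq ?_) h1.1, h1.2.1.trans (le_of_eq ?_)⟩
  · unfold P6
    generalize (r : ℝ) / 2 ^ 40 = x
    push_cast
    ring
  · unfold P6
    generalize (r : ℝ) / 2 ^ 40 = x
    push_cast
    ring

/-! ### the result -/

theorem exp32 : (2 : ℝ) ^ 40 ≤ Real.exp 32 := by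
  have h1 : (2.7 : ℝ) ≤ Real.exp 1 := by
    have := Real.exp_one_gt_d9
    linarith
  have h2 : Real.exp 32 = Real.exp 1 ^ 32 := by
    rw [← Real.exp_nat_mul]
    norm_num
  rw [h2]
  calc (2 : ℝ) ^ 40 ≤ 2.7 ^ 32 := by norm_num
    _ ≤ _ := pow_le_pow_left₀ (by norm_num) h1 32

theorem expUp_big {v : ℕ} (hv : 35184372088832 ≤ v) : N.expUp v = 1 := by
  unfold N.expUp
  rw [Nat.ble_eq_true_of_le hv, cond_true]

theorem expLo_big {v : ℕ} (hv : 35184372088832 ≤ v) : N.expLo v = 0 := by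
  unfold N.expLo
  rw [Nat.ble_eq_true_of_le hv, cond_true]

theorem ble_false {a b : ℕ} (h : b < a) : Nat.ble a b = false := by
  rw [Bool.eq_false_iff]
  intro h'
  have := Nat.le_of_ble_eq_true h'
  omega

theorem expUp_small {v : ℕ} (hv : v < 35184372088832) : N.expUp v =
    2 + N.fld N.e8U (v / 2 ^ 37) * (2 + N.eP (v % 2 ^ 37) 6) / 2 ^ 40 := by
  have h : ∀ x : ℕ, Nat.shiftRight x 40 = x / 2 ^ 40 := fun x => Nat.shiftRight_eq_div_pow _ _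
  have h' : ∀ x : ℕ, Nat.shiftRight x 37 = x / 2 ^ 37 := fun x => Nat.shiftRight_eq_div_pow _ _
  have h1 : ∀ x y : ℕ, Nat.add x y = x + y := fun _ _ => rfl
  have h2 : ∀ x y : ℕ, Nat.mul x y = x * y := fun _ _ => rfl
  have h3 : ∀ x y : ℕ, Nat.mod x y = x % y := fun _ _ => rfl
  unfold N.expUp
  rw [ble_false hv, cond_false]
  simp only [h, h', h1, h2, h3]
  norm_num

theorem expLo_small {v : ℕ} (hv : v < 35184372088832) : N.expLo v =
    N.fld N.e8L (v / 2 ^ 37) * (N.eP (v % 2 ^ 37) 6 - 110) / 2 ^ 40 := by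
  have h : ∀ x : ℕ, Nat.shiftRight x 40 = x / 2 ^ 40 := fun x => Nat.shiftRight_eq_div_pow _ _
  have h' : ∀ x : ℕ, Nat.shiftRight x 37 = x / 2 ^ 37 := fun x => Nat.shiftRight_eq_div_pow _ _
  have h1 : ∀ x y : ℕ, Nat.sub x y = x - y := fun _ _ => rfl
  have h2 : ∀ x y : ℕ, Nat.mul x y = x * y := fun _ _ => rfl
  have h3 : ∀ x y : ℕ, Nat.mod x y = x % y := fun _ _ => rfl
  unfold N.expLo
  rw [ble_false hv, cond_false]
  simp only [h, h', h1, h2, h3]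
  norm_num

theorem split_v (v : ℕ) : Real.exp (-(vR v)) = Real.exp (-(((v / 2 ^ 37 : ℕ) : ℝ) / 8)) *
    Real.exp (-(((v % 2 ^ 37 : ℕ) : ℝ) / 2 ^ 40)) := by
  rw [← Real.exp_add]
  congr 1
  have h1 := Nat.div_add_mod v (2 ^ 37)
  have h2 : (v : ℝ) = 2 ^ 37 * ((v / 2 ^ 37 : ℕ) : ℝ) + ((v % 2 ^ 37 : ℕ) : ℝ) := by
    exact_mod_cast h1.symm
  unfold vR
  rw [h2]
  ring

/-- the final estimates -/
theorem final_bd {U L e : ℕ} {z x : ℝ} (hU : Real.exp (-z) ≤ (U : ℝ) / 2 ^ 40)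
    (hL : (L : ℝ) / 2 ^ 40 ≤ Real.exp (-z)) (hP : 2 ^ 40 * P6 x - 1 ≤ (e : ℝ))
    (hP' : (e : ℝ) ≤ 2 ^ 40 * P6 x + 2) (hT : Real.exp (-x) ≤ P6 x)
    (hT' : P6 x - 106 / 2 ^ 40 ≤ Real.exp (-x)) :
    Real.exp (-z) * Real.exp (-x) ≤ vR (2 + U * (2 + e) / 2 ^ 40) ∧
    vR (L * (e - 110) / 2 ^ 40) ≤ Real.exp (-z) * Real.exp (-x) := by
  have hz := Real.exp_nonneg (-z)
  have hx := Real.exp_nonneg (-x)
  unfold vR
  constructor
  · have h1 := (div_bd (U * (2 + e))).1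
    have h2 : Real.exp (-z) * Real.exp (-x) ≤ (U : ℝ) / 2 ^ 40 * ((2 + (e : ℝ)) / 2 ^ 40) := by
      refine mul_le_mul hU (hT.trans ?_) hx (by positivity)
      rw [le_div_iff₀ (by positivity)]
      linarith
    refine h2.trans ?_
    generalize U * (2 + e) / 2 ^ 40 = q at h1 ⊢
    push_cast at h1 ⊢
    have h3 : (U : ℝ) / 2 ^ 40 * ((2 + (e : ℝ)) / 2 ^ 40) =
        ((U : ℝ) * (2 + (e : ℝ)) / 2 ^ 40) / 2 ^ 40 := by ring
    rw [h3]
    apply div_le_div_of_nonneg_right _ (by positivity)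
    linarith
  · have h1 := (div_bd (L * (e - 110))).2
    have h4 : ((e - 110 : ℕ) : ℝ) / 2 ^ 40 ≤ Real.exp (-x) := by
      rcases le_total e 110 with h | h
      · rw [Nat.sub_eq_zero_of_le h]
        simpa using hx
      · rw [Nat.cast_sub h, div_le_iff₀ (by positivity)]
        generalize Real.exp (-x) = E at *
        generalize P6 x = p at *
        generalize (e : ℝ) = e' at *
        norm_num at *
        linarith
    have h2 : (L : ℝ) / 2 ^ 40 * (((e - 110 : ℕ) : ℝ) / 2 ^ 40) ≤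
        Real.exp (-z) * Real.exp (-x) := mul_le_mul hL h4 (by positivity) hz
    refine le_trans ?_ h2
    generalize L * (e - 110) / 2 ^ 40 = q at h1 ⊢
    rw [Nat.cast_mul] at h1
    have h3 : (L : ℝ) / 2 ^ 40 * (((e - 110 : ℕ) : ℝ) / 2 ^ 40) =
        ((L : ℝ) * ((e - 110 : ℕ) : ℝ) / 2 ^ 40) / 2 ^ 40 := by ring
    rw [h3]
    exact div_le_div_of_nonneg_right h1 (by positivity)

theorem gEXP : GEXP := by
  intro v
  by_cases hv : 35184372088832 ≤ v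
  · rw [expUp_big hv, expLo_big hv]
    constructor
    · have h1 : (32 : ℝ) ≤ vR v := by
        unfold vR
        rw [le_div_iff₀ (by positivity)]
        norm_num
        exact_mod_cast hv
      rw [Real.exp_neg]
      unfold vR
      rw [Nat.cast_one, one_div]
      apply inv_anti₀ (by positivity)
      exact exp32.trans (Real.exp_le_exp.2 h1)
    · simp [vR, Real.exp_nonneg]
  · have hv' : v < 35184372088832 := not_le.1 hv
    rw [expUp_small hv', expLo_small hv', split_v]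
    have hi : v / 2 ^ 37 ≤ 255 := by omega
    have hr : v % 2 ^ 37 ≤ 2 ^ 37 := (Nat.mod_lt _ (by norm_num)).le
    have hr' : ((v % 2 ^ 37 : ℕ) : ℝ) ≤ 2 ^ 37 := by exact_mod_cast hr
    have hT := exp_taylor (x := ((v % 2 ^ 37 : ℕ) : ℝ) / 2 ^ 40) (by positivity) (by
      generalize ((v % 2 ^ 37 : ℕ) : ℝ) = y at hr'
      rw [div_le_iff₀ (by positivity)]
      norm_num at hr' ⊢
      exact hr')
    exact final_bd (fldU hi) (fldL hi) (eP_bd hr).1 (eP_bd hr).2 hT.1 hT.2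

end Pool.Agent.Helper3.PT
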